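import Mathlib
import Pool.Agent.Paving7.Final

set_option autoImplicit false

/-!
# Paving matroids do not make up more than half of the simple matroids on seven elements

The definitions of the problem, for matroids with ground set the whole of `Fin n`: circuits with
one or two elements, the rank, isomorphism by a bijection of the ground sets, and the numbers
`s n` and `p n` of isomorphism classes, counted as elements of the quotient of the set of all
matroids on `Fin n` by isomorphism.

`result`: at most `50` classes of simple matroids on seven elements are paving and at least `51`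
are not paving.  Hence `2 * p 7 < s 7`, and the inequality `s n / 2 < p n` is not true for all
`n`.
-/

namespace Pool.Agent.Results.MP_437270_co.HalfFails

open Set

/-- simple: no circuit has exactly one or exactly two elements -/
def IsSimple {α : Type*} (M : Matroid α) : Prop :=
  ∀ C : Set α, M.IsCircuit C → C.encard ≠ 1 ∧ C.encard ≠ 2

/-- paving: every circuit has at least as many elements as the rank of the matroid -/
def IsPaving {α : Type*} (M : Matroid α) : Prop :=
  ∀ C : Set α, M.IsCircuit C → M.eRank ≤ C.encard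

/-- matroids whose ground set is the whole of `Fin n` -/
def MatroidOn (n : ℕ) : Type := {M : Matroid (Fin n) // M.E = univ}

/-- `N` and `M` are isomorphic: some bijection of the ground sets carries the independent sets
of `N` onto those of `M` -/
def Iso {n : ℕ} (N M : MatroidOn n) : Prop :=
  ∃ σ : Equiv.Perm (Fin n), ∀ I : Set (Fin n), N.1.Indep I ↔ M.1.Indep (σ '' I)

theorem Iso.refl {n : ℕ} (M : MatroidOn n) : Iso M M :=
  ⟨Equiv.refl _, fun I => by simp⟩

theorem Iso.symm {n : ℕ} {N M : MatroidOn n} (h : Iso N M) : Iso M N := by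
  obtain ⟨σ, hσ⟩ := h
  refine ⟨σ.symm, fun I => ?_⟩
  rw [hσ]
  simp

theorem Iso.trans {n : ℕ} {K N M : MatroidOn n} (h : Iso K N) (h' : Iso N M) : Iso K M := by
  obtain ⟨σ, hσ⟩ := h
  obtain ⟨τ, hτ⟩ := h'
  refine ⟨σ.trans τ, fun I => ?_⟩
  rw [hσ, hτ, Equiv.coe_trans, Set.image_comp]

/-- isomorphism, as an equivalence relation on the matroids with ground set `Fin n` -/
def isoSetoid (n : ℕ) : Setoid (MatroidOn n) where
  r := Iso
  iseqv := ⟨Iso.refl, Iso.symm, Iso.trans⟩

/-- the isomorphism classes of matroids with exactly `n` elements -/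
def IsoClass (n : ℕ) : Type := Quotient (isoSetoid n)

/-- the isomorphism class of a matroid -/
def classOf {n : ℕ} (M : MatroidOn n) : IsoClass n := Quotient.mk (isoSetoid n) M

/-- the number of isomorphism classes of simple matroids with exactly `n` elements -/
noncomputable def s (n : ℕ) : ℕ :=
  {q : IsoClass n | ∃ M : MatroidOn n, IsSimple M.1 ∧ classOf M = q}.ncard

/-- the number of those isomorphism classes that consist of paving matroids -/
noncomputable def p (n : ℕ) : ℕ :=
  {q : IsoClass n | (∃ M : MatroidOn n, IsSimple M.1 ∧ classOf M = q) ∧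
    ∀ M : MatroidOn n, classOf M = q → IsPaving M.1}.ncard

/-! ### The transfer to the classes of the proof of the frozen statement -/

theorem isSimple_iff {M : Matroid (Fin 7)} (hE : M.E = univ) :
    IsSimple M ↔ Pool.Agent.Paving7.Simp M := by
  rw [← Pool.Agent.Paving7.simp_iff hE]
  refine forall_congr' fun C => forall_congr' fun hC => ?_
  have hne : C.Nonempty := hC.nonempty
  have h1 : 0 < C.ncard := (Set.ncard_pos (Set.toFinite C)).2 hne
  have h2 : C.encard = (C.ncard : ℕ∞) := (Set.toFinite C).cast_ncard_eq.symm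
  rw [h2]
  constructor
  · rintro ⟨ha, hb⟩
    have ha' : C.ncard ≠ 1 := fun h => ha (by rw [h]; rfl)
    have hb' : C.ncard ≠ 2 := fun h => hb (by rw [h]; rfl)
    omega
  · intro h
    constructor
    · intro h'
      have h3 : C.ncard = 1 := by exact_mod_cast h'
      omega
    · intro h'
      have h3 : C.ncard = 2 := by exact_mod_cast h'
      omega

theorem isPaving_iff {M : Matroid (Fin 7)} (hE : M.E = univ) :
    IsPaving M ↔ Pool.Agent.Paving7.Pav M := by
  rw [← Pool.Agent.Paving7.pav_iff hE]
  constructor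
  · intro h C B hC hB
    have h1 := h C hC
    rw [← hB.encard_eq_eRank, ← (Set.toFinite C).cast_ncard_eq,
      ← (Set.toFinite B).cast_ncard_eq] at h1
    exact_mod_cast h1
  · intro h C hC
    obtain ⟨B, hB⟩ := M.exists_isBase
    rw [← hB.encard_eq_eRank, ← (Set.toFinite C).cast_ncard_eq,
      ← (Set.toFinite B).cast_ncard_eq]
    exact_mod_cast h C B hC hB

instance : Finite (MatroidOn 7) :=
  (Matroid.finite_setOfPred_matroid' (E := (univ : Set (Fin 7))) (Set.toFinite _)).to_subtype

instance : Finite (IsoClass 7) := by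
  unfold IsoClass
  infer_instance

/-- the set of matroids of an isomorphism class -/
def members : IsoClass 7 → Set (Matroid (Fin 7)) :=
  Quotient.lift (fun M : MatroidOn 7 => Pool.Agent.Paving7.cls M.1) (by
    intro N M h
    obtain ⟨σ, hσ⟩ := h
    exact Pool.Agent.Paving7.cls_eq ⟨N.2, σ, hσ⟩)

theorem members_classOf (M : MatroidOn 7) : members (classOf M) = Pool.Agent.Paving7.cls M.1 :=
  rfl

theorem members_injective : Function.Injective members := by
  intro q q' h
  induction q using Quotient.ind with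
  | _ M =>
    induction q' using Quotient.ind with
    | _ N =>
      have h' : Pool.Agent.Paving7.cls M.1 = Pool.Agent.Paving7.cls N.1 := h
      have h1 : M.1 ∈ Pool.Agent.Paving7.cls N.1 := by
        rw [← h']
        exact Pool.Agent.Paving7.mem_cls_self M.2
      obtain ⟨_, σ, hσ⟩ := h1
      exact Quotient.sound (s := isoSetoid 7) ⟨σ, hσ⟩

theorem pav_of_classOf_eq {M N : MatroidOn 7} (h : classOf M = classOf N)
    (hN : Pool.Agent.Paving7.Pav N.1) : Pool.Agent.Paving7.Pav M.1 := by
  have h' : Pool.Agent.Paving7.cls M.1 = Pool.Agent.Paving7.cls N.1 := by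
    rw [← members_classOf, ← members_classOf, h]
  have h1 : M.1 ∈ Pool.Agent.Paving7.cls N.1 := by
    rw [← h']
    exact Pool.Agent.Paving7.mem_cls_self M.2
  exact Pool.Agent.Paving7.pav_of_cls h1 hN

theorem p_le : p 7 ≤ 50 := by
  unfold p
  rw [← Set.ncard_image_of_injective _ members_injective]
  refine le_trans (Set.ncard_le_ncard ?_ ?_) Pool.Agent.Paving7.ncard_pav
  · rintro c ⟨q, ⟨⟨M, hM, rfl⟩, hq⟩, rfl⟩
    exact ⟨M.1, M.2, (isSimple_iff M.2).1 hM, (isPaving_iff M.2).1 (hq M rfl), rfl⟩
  · apply ((Matroid.finite_setOfPred_matroid' (E := (univ : Set (Fin 7)))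
      (Set.toFinite _)).image Pool.Agent.Paving7.cls).subset
    rintro c ⟨M, hE, -, -, rfl⟩
    exact ⟨M, hE, rfl⟩

theorem le_nonpaving : 51 ≤ {q : IsoClass 7 | ∃ M : MatroidOn 7, IsSimple M.1 ∧ ¬ IsPaving M.1 ∧
    classOf M = q}.ncard := by
  rw [← Set.ncard_image_of_injective _ members_injective]
  refine le_trans Pool.Agent.Paving7.ncard_nonpav (Set.ncard_le_ncard ?_ ?_)
  · rintro c ⟨M, hE, hS, hP, rfl⟩
    exact ⟨classOf ⟨M, hE⟩, ⟨⟨M, hE⟩, (isSimple_iff hE).2 hS,
      fun h => hP ((isPaving_iff hE).1 h), rfl⟩, rfl⟩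
  · exact (Set.toFinite _).image _

theorem s_eq : s 7 = p 7 + {q : IsoClass 7 | ∃ M : MatroidOn 7, IsSimple M.1 ∧
    ¬ IsPaving M.1 ∧ classOf M = q}.ncard := by
  unfold s p
  rw [← Set.ncard_union_eq]
  · congr 1
    ext q
    constructor
    · rintro ⟨M, hM, rfl⟩
      by_cases hP : IsPaving M.1
      · refine Or.inl ⟨⟨M, hM, rfl⟩, fun N hN => ?_⟩
        exact (isPaving_iff N.2).2 (pav_of_classOf_eq hN ((isPaving_iff M.2).1 hP))
      · exact Or.inr ⟨M, hM, hP, rfl⟩
    · rintro (⟨⟨M, hM, rfl⟩, -⟩ | ⟨M, hM, -, rfl⟩)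
      · exact ⟨M, hM, rfl⟩
      · exact ⟨M, hM, rfl⟩
  · rw [Set.disjoint_left]
    rintro q ⟨-, h⟩ ⟨M, -, hP, hq⟩
    exact hP (h M hq)

/-- At most `50` of the isomorphism classes of simple matroids with seven elements are paving,
and at least `51` are not.  So `2 * p 7 < s 7`, and it is not true that `s n / 2 < p n` for every
`n`. -/
theorem result :
    p 7 ≤ 50 ∧ p 7 + 51 ≤ s 7 ∧ 2 * p 7 < s 7 ∧ ¬ ∀ n : ℕ, (1 / 2 : ℚ) * (s n : ℚ) < (p n : ℚ) := by
  have h1 := p_le
  have h2 := le_nonpaving
  have h3 := s_eq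
  refine ⟨h1, by omega, by omega, fun h => ?_⟩
  have h4 := h 7
  have h5 : 2 * p 7 < s 7 := by omega
  have h6 : (2 : ℚ) * (p 7 : ℚ) < (s 7 : ℚ) := by exact_mod_cast h5
  linarith

end Pool.Agent.Results.MP_437270_co.HalfFails
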